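import Pool.Agent.H34.N6V.Targets
import Pool.Agent.H23.N6E.ECFI
import Pool.Agent.H43.N6E.EFIN
import Pool.Agent.H12.QC.WB

/-!
# VSEP: elements which separate two places above a place
-/

set_option autoImplicit false

open Polynomial NumberField IsDedekindDomain Pool.Agent.H32.QC Pool.Agent.H34.N6
  Pool.Agent.H13.DEV Pool.Agent.H34.N6V

namespace Pool.Agent.H50.N6V

theorem exists_poly {k L : Type} [Field k] [NumberField k] [Field L] [NumberField L]
    [Algebra k L] {P : k[X]} {e : L} (hP : P.Monic) (hG : Gen P e) (z : L) :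
    ∃ Q : k[X], Q.degree < P.degree ∧ aeval e Q = z := by
  have h1 := Pool.Agent.H23.N6E.gen_adjoin hG
  have h2 : z ∈ Algebra.adjoin k {e} := by
    rw [h1]
    exact Algebra.mem_top
  rw [Algebra.adjoin_singleton_eq_range_aeval] at h2
  obtain ⟨Q, hQ⟩ := h2
  have heP : aeval e P = 0 := by
    rw [← hG.mp]
    exact minpoly.aeval k e
  refine ⟨Q %ₘ P, degree_modByMonic_lt Q hP, ?_⟩
  rw [← hQ]
  have h3 := congrArg (aeval e) (modByMonic_add_div Q P)
  rw [map_add, map_mul, heP, zero_mul, add_zero] at h3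
  exact h3

theorem pf_SEP (hCFI : T_CFI) : T_SEP := by
  intro k L _ _ _ _ _ P D e v w w' hP hG hgood hw hw' hne
  classical
  have hfin : {u : FPl L | u.under (𝓞 k) = v}.Finite := by
    have h1 := (Pool.Agent.H43.N6E.pf_FIN k L).1 (Sum.inl v)
    have h2 := h1.preimage (f := (Sum.inl : FPl L → Pl L)) (Sum.inl_injective.injOn)
    apply h2.subset
    intro u hu
    change bel (k := k) (Sum.inl u : Pl L) = Sum.inl v
    exact congrArg Sum.inl hu
  let x : ∀ u : FPl L, u.adicCompletion L := fun u => if u = w' then 1 else 0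
  obtain ⟨z, hz, _⟩ := Pool.Agent.H12.QC.weakApprox (K := L) hfin.toFinset x
    (fun u => Metric.ball (x u) 1) (fun u _ => Metric.ball_mem_nhds _ one_pos) (fun _ => 0) 1
    one_pos
  have hz' : ∀ u : FPl L, u.under (𝓞 k) = v → ‖ic u z - x u‖ < 1 := by
    intro u hu
    have h := hz u (hfin.mem_toFinset.2 hu)
    rw [Metric.mem_ball, dist_eq_norm] at h
    exact h
  have hx1 : x w' = 1 := by
    exact if_pos rfl
  have hx0 : ∀ u, u ≠ w' → x u = 0 := by
    intro u hu
    exact if_neg hu
  obtain ⟨Q, hQd, hQz⟩ := exists_poly hP hG z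
  refine ⟨Q, ?_, ?_, ?_⟩
  · apply hCFI k L P D e v hG hgood Q hQd
    intro u hu
    rw [hQz]
    by_cases h : u = w'
    · subst h
      have h1 := hz' u hu
      rw [hx1] at h1
      have h2 : ic u z = (ic u z - 1) + 1 := by ring
      rw [h2]
      refine (IsUltrametricDist.norm_add_le_max _ _).trans (max_le h1.le ?_)
      rw [norm_one]
    · have h1 := hz' u hu
      rw [hx0 u h, sub_zero] at h1
      exact h1.le
  · rw [hQz]
    have h1 := hz' w hw
    rw [hx0 w hne, sub_zero] at h1
    exact h1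
  · rw [hQz]
    have h1 := hz' w' hw'
    rw [hx1] at h1
    exact h1

end Pool.Agent.H50.N6V
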